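import Pool.Agent.R363.CubicCore2

/-!
# Thin rays and unbounded integer cubic minimization

For every `n`, every rational polyhedron `P` in `ℝ^n` and every real polynomial `f` of degree at
most three, `f` is unbounded below on the integer points of `P` if and only if `P` has an unbounded
thin ray for `f`; moreover the ray can be chosen with an integral starting point.

Idea of the proof: take integer points `x` of `P` (indexed by an ultrafilter) with `f x → -∞`.  After
turning the constraints with bounded slack into equations, all slacks tend to infinity.  Assume that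
there is no thin ray.  Then one constructs an increasing chain of subspaces `S` on which the polar forms
of the cubic and the quadratic part vanish, so that `f` is affine along `S`, and such that the
component of `x` in `S` is much larger than the orthogonal component `y`.  The limit direction of
`y / ‖y‖` can be added to `S`, because moving a point deep inside of the recession cone by a bounded
vector stays in the recession cone, where the cubic part is nonnegative.  In the end `y` is bounded,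
which contradicts `f x → -∞`.
-/

set_option autoImplicit false

open Filter Topology Set Pool.Agent.R363.CubicCore
open scoped Pointwise

namespace Pool.Agent.Results.MP_0e8110_lc.ThinRays

/-! ### The objects of the problem -/

/-- The space `ℝ^n` with the Euclidean norm. -/
abbrev Space (n : ℕ) : Type := EuclideanSpace ℝ (Fin n)

/-- A rational polyhedron: the set of solutions of `A x ≤ b` with rational `A` and `b`. -/
def IsRationalPolyhedron {n : ℕ} (P : Set (Space n)) : Prop :=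
  ∃ (m : ℕ) (A : Fin m → Fin n → ℚ) (b : Fin m → ℚ),
    P = {x | ∀ i, ∑ j, (A i j : ℝ) * x j ≤ (b i : ℝ)}

/-- The integer points of `ℝ^n`. -/
def intPoints (n : ℕ) : Set (Space n) := {x | ∀ j, ∃ k : ℤ, x j = k}

/-- The ray `R(y,d)`. -/
def ray {n : ℕ} (y d : Space n) : Set (Space n) := {x | ∃ t : ℝ, 0 ≤ t ∧ x = y + t • d}

/-- The infimum of `f` over `S` is `-∞`. -/
def UnboundedBelow {n : ℕ} (f : Space n → ℝ) (S : Set (Space n)) : Prop :=
  ∀ M : ℝ, ∃ x ∈ S, f x < M

/-- A cubic function: a real polynomial function of degree at most three. -/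
def IsCubicFunction {n : ℕ} (f : Space n → ℝ) : Prop :=
  ∃ p : MvPolynomial (Fin n) ℝ, p.totalDegree ≤ 3 ∧ ∀ x, f x = MvPolynomial.eval (fun j => x j) p

/-- The ray `R(y,d)` is an unbounded thin ray of `P` for `f`. -/
structure IsUnboundedThinRay {n : ℕ} (P : Set (Space n)) (f : Space n → ℝ) (y d : Space n) :
    Prop where
  ne : d ≠ 0
  subset : ray y d ⊆ P
  unbounded : ∀ ε : ℝ, 0 < ε →
    UnboundedBelow f (P ∩ intPoints n ∩ (ray y d + Metric.closedBall 0 ε))

/-! ### Polynomials of degree at most three -/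

section

variable {E : Type*} [NormedAddCommGroup E] [InnerProductSpace ℝ E]

/-- constant functions -/
def cubConst (c : ℝ) : CubicFn E where
  T := fun _ _ _ => 0
  B := fun _ _ => 0
  L := fun _ => 0
  c := c
  Tadd := by intros; simp
  Tsmul := by intros; simp
  Tsymm₁ := by intros; rfl
  Tsymm₂ := by intros; rfl
  Tcont := continuous_const
  Badd := by intros; simp
  Bsmul := by intros; simp
  Bsymm := by intros; rfl
  Bcont := continuous_const
  Ladd := by intros; simp
  Lsmul := by intros; simp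
  Lcont := continuous_const

/-- multiples of linear functionals -/
def cubLin (r : ℝ) (ℓ : E →L[ℝ] ℝ) : CubicFn E where
  T := fun _ _ _ => 0
  B := fun _ _ => 0
  L := fun x => r * ℓ x
  c := 0
  Tadd := by intros; simp
  Tsmul := by intros; simp
  Tsymm₁ := by intros; rfl
  Tsymm₂ := by intros; rfl
  Tcont := continuous_const
  Badd := by intros; simp
  Bsmul := by intros; simp
  Bsymm := by intros; rfl
  Bcont := continuous_const
  Ladd := by intros; rw [map_add]; ring
  Lsmul := by intros; rw [map_smul, smul_eq_mul]; ring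
  Lcont := continuous_const.mul ℓ.continuous

/-- multiples of products of two linear functionals -/
noncomputable def cubQuad (r : ℝ) (ℓ₁ ℓ₂ : E →L[ℝ] ℝ) : CubicFn E where
  T := fun _ _ _ => 0
  B := fun x y => r * ((ℓ₁ x * ℓ₂ y + ℓ₁ y * ℓ₂ x) / 2)
  L := fun _ => 0
  c := 0
  Tadd := by intros; simp
  Tsmul := by intros; simp
  Tsymm₁ := by intros; rfl
  Tsymm₂ := by intros; rfl
  Tcont := continuous_const
  Badd := by intros; simp only [map_add]; ring
  Bsmul := by intros; simp only [map_smul, smul_eq_mul]; ring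
  Bsymm := by intros; ring
  Bcont := by fun_prop
  Ladd := by intros; simp
  Lsmul := by intros; simp
  Lcont := continuous_const

/-- multiples of products of three linear functionals -/
noncomputable def cubCub (r : ℝ) (ℓ₁ ℓ₂ ℓ₃ : E →L[ℝ] ℝ) : CubicFn E where
  T := fun x y z => r * ((ℓ₁ x * ℓ₂ y * ℓ₃ z + ℓ₁ x * ℓ₂ z * ℓ₃ y + ℓ₁ y * ℓ₂ x * ℓ₃ z
    + ℓ₁ y * ℓ₂ z * ℓ₃ x + ℓ₁ z * ℓ₂ x * ℓ₃ y + ℓ₁ z * ℓ₂ y * ℓ₃ x) / 6)
  B := fun _ _ => 0
  L := fun _ => 0
  c := 0
  Tadd := by intros; simp only [map_add]; ring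
  Tsmul := by intros; simp only [map_smul, smul_eq_mul]; ring
  Tsymm₁ := by intros; ring
  Tsymm₂ := by intros; ring
  Tcont := by fun_prop
  Badd := by intros; simp
  Bsmul := by intros; simp
  Bsymm := by intros; rfl
  Bcont := continuous_const
  Ladd := by intros; simp
  Lsmul := by intros; simp
  Lcont := continuous_const

/-- sums -/
def cubAdd (F G : CubicFn E) : CubicFn E where
  T := fun x y z => F.T x y z + G.T x y z
  B := fun x y => F.B x y + G.B x y
  L := fun x => F.L x + G.L x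
  c := F.c + G.c
  Tadd := by intros; rw [F.Tadd, G.Tadd]; ring
  Tsmul := by intros; rw [F.Tsmul, G.Tsmul]; ring
  Tsymm₁ := by intro a b c; rw [F.Tsymm₁ a b c, G.Tsymm₁ a b c]
  Tsymm₂ := by intro a b c; rw [F.Tsymm₂ a b c, G.Tsymm₂ a b c]
  Tcont := F.Tcont.add G.Tcont
  Badd := by intros; rw [F.Badd, G.Badd]; ring
  Bsmul := by intros; rw [F.Bsmul, G.Bsmul]; ring
  Bsymm := by intro a b; rw [F.Bsymm a b, G.Bsymm a b]
  Bcont := F.Bcont.add G.Bcont
  Ladd := by intros; rw [F.Ladd, G.Ladd]; ring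
  Lsmul := by intros; rw [F.Lsmul, G.Lsmul]; ring
  Lcont := F.Lcont.add G.Lcont

theorem cubAdd_val (F G : CubicFn E) (x : E) : (cubAdd F G).val x = F.val x + G.val x := by
  simp only [CubicFn.val, cubAdd]; ring

/-- the function `v ↦ F (x₀ + v)` on a subspace -/
def cubRestrict (F : CubicFn E) (x₀ : E) (W : Submodule ℝ E) : CubicFn W where
  T := fun x y z => F.T x y z
  B := fun x y => F.B x y + 3 * F.T x₀ x y
  L := fun x => F.L x + 2 * F.B x₀ x + 3 * F.T x₀ x₀ x
  c := F.val x₀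
  Tadd := by intros; rw [Submodule.coe_add, F.Tadd]
  Tsmul := by intros; rw [Submodule.coe_smul, F.Tsmul]
  Tsymm₁ := by intro a b c; exact F.Tsymm₁ _ _ _
  Tsymm₂ := by intro a b c; exact F.Tsymm₂ _ _ _
  Tcont := F.Tcont.comp (f := fun p : W × W × W => ((p.1 : E), (p.2.1 : E), (p.2.2 : E)))
    (by fun_prop)
  Badd := by intros; rw [Submodule.coe_add, F.Badd, F.Tadd₂]; ring
  Bsmul := by intros; rw [Submodule.coe_smul, F.Bsmul, F.Tsmul₂]; ring
  Bsymm := by intro a b; rw [F.Bsymm a b, F.Tsymm₂]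
  Bcont := (F.Bcont.comp (f := fun p : W × W => ((p.1 : E), (p.2 : E))) (by fun_prop)).add
    (continuous_const.mul (F.Tcont.comp (f := fun p : W × W => (x₀, (p.1 : E), (p.2 : E)))
      (by fun_prop)))
  Ladd := by intros; rw [Submodule.coe_add, F.Ladd, F.Badd₂, F.Tadd₃]; ring
  Lsmul := by intros; rw [Submodule.coe_smul, F.Lsmul, F.Bsmul₂, F.Tsmul₃]; ring
  Lcont := ((F.Lcont.comp (f := fun p : W => (p : E)) (by fun_prop)).add
    (continuous_const.mul (F.Bcont.comp (f := fun p : W => (x₀, (p : E))) (by fun_prop)))).add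
    (continuous_const.mul (F.Tcont.comp (f := fun p : W => (x₀, x₀, (p : E))) (by fun_prop)))

theorem cubRestrict_val (F : CubicFn E) (x₀ : E) (W : Submodule ℝ E) (v : W) :
    (cubRestrict F x₀ W).val v = F.val (x₀ + v) := by
  have h := F.val_add_smul 1 (v : E) x₀
  rw [one_smul] at h
  rw [h]
  simp only [CubicFn.val, cubRestrict, CubicFn.slope]
  have h1 : F.T (v : E) v x₀ = F.T x₀ v v := by rw [F.Tsymm₂, F.Tsymm₁]
  have h2 : F.T (v : E) x₀ x₀ = F.T x₀ x₀ v := by rw [F.Tsymm₁, F.Tsymm₂]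
  have h3 : F.B (v : E) x₀ = F.B x₀ v := F.Bsymm _ _
  rw [h1, h2, h3]
  ring

end

/-- the `j`-th coordinate -/
noncomputable def coord {n : ℕ} (j : Fin n) : Space n →L[ℝ] ℝ := EuclideanSpace.proj j

theorem coord_apply {n : ℕ} (j : Fin n) (x : Space n) : coord j x = x j := rfl

theorem exists_cubic_monomial {n : ℕ} (r : ℝ) (s : Multiset (Fin n)) (hs : s.card ≤ 3) :
    ∃ F : CubicFn (Space n), ∀ x, F.val x = r * (s.map (fun j => x j)).prod := by
  have h4 : s.card = 0 ∨ s.card = 1 ∨ s.card = 2 ∨ s.card = 3 := by omega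
  rcases h4 with h | h | h | h
  · rw [Multiset.card_eq_zero] at h
    subst h
    exact ⟨cubConst r, fun x => by simp [CubicFn.val, cubConst]⟩
  · obtain ⟨a, rfl⟩ := Multiset.card_eq_one.1 h
    exact ⟨cubLin r (coord a), fun x => by simp [CubicFn.val, cubLin, coord_apply]⟩
  · obtain ⟨a, b, rfl⟩ := Multiset.card_eq_two.1 h
    refine ⟨cubQuad r (coord a) (coord b), fun x => ?_⟩
    simp [CubicFn.val, cubQuad, coord_apply]
  · obtain ⟨a, b, c, rfl⟩ := Multiset.card_eq_three.1 h
    refine ⟨cubCub r (coord a) (coord b) (coord c), fun x => ?_⟩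
    simp only [CubicFn.val, cubCub, coord_apply, Multiset.insert_eq_cons, Multiset.map_cons,
      Multiset.map_singleton, Multiset.prod_cons, Multiset.prod_singleton]
    ring

theorem exists_cubic {n : ℕ} {f : Space n → ℝ} (hf : IsCubicFunction f) :
    ∃ F : CubicFn (Space n), ∀ x, F.val x = f x := by
  obtain ⟨p, hp, hfp⟩ := hf
  have key : ∀ t : Finset (Fin n →₀ ℕ), t ⊆ p.support →
      ∃ F : CubicFn (Space n), ∀ x, F.val x =
        ∑ m ∈ t, p.coeff m * (m.toMultiset.map (fun j => x j)).prod := by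
    intro t
    induction t using Finset.induction_on with
    | empty => intro _; exact ⟨cubConst 0, fun x => by simp [CubicFn.val, cubConst]⟩
    | insert m t hm ih =>
      intro ht
      obtain ⟨F, hF⟩ := ih ((Finset.subset_insert _ _).trans ht)
      have h1 : m.toMultiset.card ≤ 3 := by
        rw [Finsupp.card_toMultiset]
        exact (MvPolynomial.le_totalDegree (ht (Finset.mem_insert_self _ _))).trans hp
      obtain ⟨G, hG⟩ := exists_cubic_monomial (p.coeff m) m.toMultiset h1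
      refine ⟨cubAdd G F, fun x => ?_⟩
      rw [cubAdd_val, hG, hF, Finset.sum_insert hm]
  obtain ⟨F, hF⟩ := key p.support subset_rfl
  refine ⟨F, fun x => ?_⟩
  rw [hF, hfp, MvPolynomial.eval_eq]
  refine Finset.sum_congr rfl fun m _ => ?_
  congr 1
  rw [Finsupp.toMultiset_map, Finsupp.prod_toMultiset, Finsupp.prod_mapDomain_index]
  · rfl
  · intro; simp
  · intro _ a b; exact pow_add _ _ _

/-! ### Simultaneous approximation -/

theorem exists_approx {n : ℕ} (D : Space n) {ε : ℝ} (hε : 0 < ε) (N : ℕ) :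
    ∃ t : ℕ, N ≤ t ∧ ∃ z ∈ intPoints n, ‖z - (t : ℝ) • D‖ ≤ ε := by
  have hc : IsCompact (Set.Icc (0 : Fin n → ℝ) 1) := isCompact_Icc
  obtain ⟨a, _, φ, hφ, hlim⟩ := hc.tendsto_subseq
    (x := fun k : ℕ => fun j => Int.fract ((k : ℝ) * D j))
    (fun k => ⟨fun j => Int.fract_nonneg _, fun j => (Int.fract_lt_one _).le⟩)
  have hlim' : Tendsto (fun k => (WithLp.toLp 2 (fun j => Int.fract ((φ k : ℝ) * D j)) : Space n))
      atTop (𝓝 (WithLp.toLp 2 a)) :=
    ((PiLp.continuous_toLp 2 _).tendsto a).comp hlim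
  obtain ⟨K, hK⟩ := Metric.cauchySeq_iff'.1 hlim'.cauchySeq ε hε
  obtain ⟨k, hk1, hk2⟩ := ((eventually_ge_atTop K).and
    (hφ.tendsto_atTop.eventually_ge_atTop (φ K + N))).exists
  have h1 : φ K ≤ φ k := by omega
  refine ⟨φ k - φ K, by omega,
    WithLp.toLp 2 (fun j => ((⌊(φ k : ℝ) * D j⌋ - ⌊(φ K : ℝ) * D j⌋ : ℤ) : ℝ)), ?_, ?_⟩
  · intro j
    exact ⟨_, rfl⟩
  · have h2 := (hK k hk1).le
    rw [dist_eq_norm] at h2
    rw [← norm_neg]
    refine le_of_eq_of_le ?_ h2
    congr 1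
    ext j
    simp only [PiLp.neg_apply, PiLp.sub_apply, PiLp.smul_apply, smul_eq_mul]
    rw [Nat.cast_sub h1]
    simp only [Int.fract]
    push_cast
    ring

/-! ### The limit along a direction -/

theorem tendsto_along {E : Type*} [NormedAddCommGroup E] [InnerProductSpace ℝ E] (F : CubicFn E)
    (u D : E) (h : F.T D D D < 0 ∨ ((∀ v, F.T D D v = 0) ∧ F.B D D < 0) ∨
      ((∀ v, F.T D D v = 0) ∧ F.B D D = 0 ∧ F.slope D u < 0)) :
    Tendsto (fun p : ℝ × E => F.val (u + p.2 + p.1 • D)) (atTop ×ˢ 𝓝 0) atBot := by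
  have ht : Tendsto (fun p : ℝ × E => p.1) (atTop ×ˢ 𝓝 (0 : E)) atTop := tendsto_fst
  have hv : Tendsto (fun p : ℝ × E => u + p.2) (atTop ×ˢ 𝓝 (0 : E)) (𝓝 u) := by
    have h1 : Tendsto (fun p : ℝ × E => p.2) (atTop ×ˢ 𝓝 (0 : E)) (𝓝 0) := tendsto_snd
    have h2 := h1.const_add u
    rwa [add_zero] at h2
  have hval : Tendsto (fun p : ℝ × E => F.val (u + p.2)) (atTop ×ˢ 𝓝 (0 : E)) (𝓝 (F.val u)) :=
    (F.val_continuous.tendsto u).comp hv
  have hslope : Tendsto (fun p : ℝ × E => F.slope D (u + p.2)) (atTop ×ˢ 𝓝 (0 : E))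
      (𝓝 (F.slope D u)) := ((F.slope_continuous D).tendsto u).comp hv
  have hT : Tendsto (fun p : ℝ × E => F.T D D (u + p.2)) (atTop ×ˢ 𝓝 (0 : E))
      (𝓝 (F.T D D u)) :=
    (F.Tcont.tendsto (D, D, u)).comp
      (tendsto_const_nhds.prodMk_nhds (tendsto_const_nhds.prodMk_nhds hv))
  simp only [F.val_add_smul]
  rcases h with h | ⟨h1, h2⟩ | ⟨h1, h2, h3⟩
  · have a1 : Tendsto (fun p : ℝ × E => p.1 * F.T D D D) (atTop ×ˢ 𝓝 (0 : E)) atBot :=
      ht.atTop_mul_const_of_neg h
    have a2 := a1.atBot_add ((hT.const_mul 3).add_const (F.B D D))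
    have a3 := (ht.atTop_mul_atBot₀ a2).atBot_add hslope
    exact (ht.atTop_mul_atBot₀ a3).atBot_add hval
  · have a1 : Tendsto (fun p : ℝ × E => p.1 * F.B D D) (atTop ×ˢ 𝓝 (0 : E)) atBot :=
      ht.atTop_mul_const_of_neg h2
    have a3 := a1.atBot_add hslope
    have a4 := (ht.atTop_mul_atBot₀ a3).atBot_add hval
    refine a4.congr fun p => ?_
    rw [h1, h1]; ring
  · have a1 : Tendsto (fun p : ℝ × E => p.1 * F.slope D (u + p.2)) (atTop ×ˢ 𝓝 (0 : E)) atBot :=
      ht.atTop_mul_neg h3 hslope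
    refine (a1.atBot_add hval).congr fun p => ?_
    rw [h1, h1, h2]; ring

/-! ### Integral constraints -/

theorem exists_integral {n : ℕ} {P : Set (Space n)} (hP : IsRationalPolyhedron P) :
    ∃ (m : ℕ) (a : Fin m → Fin n → ℤ) (b : Fin m → ℝ),
      P = {x | ∀ i, ∑ j, (a i j : ℝ) * x j ≤ b i} := by
  obtain ⟨m, A, b, rfl⟩ := hP
  have hd : ∀ i j, ∃ c : ℤ, (c : ℝ) = (A i j : ℝ) * (∏ j, (A i j).den : ℕ) := by
    intro i j
    obtain ⟨c, hc⟩ := Finset.dvd_prod_of_mem (fun j => (A i j).den) (Finset.mem_univ j)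
    refine ⟨(A i j).num * c, ?_⟩
    rw [hc]
    push_cast
    rw [← mul_assoc]
    congr 1
    exact_mod_cast (Rat.mul_den_eq_num (A i j)).symm
  choose a ha using hd
  refine ⟨m, a, fun i => (b i : ℝ) * (∏ j, (A i j).den : ℕ), ?_⟩
  ext x
  show (∀ i, _ ≤ _) ↔ ∀ i, _ ≤ _
  refine forall_congr' fun i => ?_
  have hpos : (0 : ℝ) < (∏ j, (A i j).den : ℕ) := by
    exact_mod_cast Finset.prod_pos fun j _ => (A i j).den_pos
  have h1 : ∑ j, (a i j : ℝ) * x j = (∑ j, (A i j : ℝ) * x j) * (∏ j, (A i j).den : ℕ) := by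
    rw [Finset.sum_mul]
    refine Finset.sum_congr rfl fun j _ => ?_
    rw [ha i j]; ring
  rw [h1]
  exact (mul_le_mul_iff_left₀ hpos).symm

/-- the functional `x ↦ ∑ a j * x j` -/
noncomputable def functional {n : ℕ} (a : Fin n → ℤ) : Space n →L[ℝ] ℝ :=
  ∑ j, (a j : ℝ) • coord j

theorem functional_apply {n : ℕ} (a : Fin n → ℤ) (x : Space n) :
    functional a x = ∑ j, (a j : ℝ) * x j := by
  simp [functional, coord_apply]

theorem functional_int {n : ℕ} (a : Fin n → ℤ) {x : Space n} (hx : x ∈ intPoints n) :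
    ∃ k : ℤ, functional a x = k := by
  choose c hc using hx
  refine ⟨∑ j, a j * c j, ?_⟩
  rw [functional_apply]
  push_cast
  exact Finset.sum_congr rfl fun j _ => by rw [hc]

theorem intPoints_add {n : ℕ} {x y : Space n} (hx : x ∈ intPoints n) (hy : y ∈ intPoints n) :
    x + y ∈ intPoints n := by
  intro j
  obtain ⟨a, ha⟩ := hx j
  obtain ⟨b, hb⟩ := hy j
  exact ⟨a + b, by rw [PiLp.add_apply, ha, hb]; push_cast; rfl⟩

theorem isThin {n m : ℕ} (a : Fin m → Fin n → ℤ) (b : Fin m → ℝ) {P : Set (Space n)}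
    (hPmem : ∀ x : Space n, x ∈ P ↔ ∀ i, functional (a i) x ≤ b i) (I : Set (Fin m))
    (W : Submodule ℝ (Space n)) (hWmem : ∀ v : Space n, v ∈ W ↔ ∀ i ∈ I, functional (a i) v = 0)
    {f : Space n → ℝ} {y D : Space n} (hy : y ∈ P ∩ intPoints n) (hDW : D ∈ W) (hD0 : D ≠ 0)
    (hDle : ∀ i, functional (a i) D ≤ 0)
    (hf : ∀ M : ℝ, ∃ (t₀ δ : ℝ), 0 < δ ∧ ∀ (s : ℝ) (v : Space n), v ∈ W → t₀ ≤ s → ‖v‖ < δ →
      f (y + v + s • D) < M) : IsUnboundedThinRay P f y D := by
  refine ⟨hD0, ?_, ?_⟩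
  · rintro _ ⟨t, ht, rfl⟩
    rw [hPmem]
    intro i
    rw [map_add, map_smul, smul_eq_mul]
    have h1 := (hPmem _).1 hy.1 i
    have h2 := mul_nonpos_of_nonneg_of_nonpos ht (hDle i)
    linarith
  · intro ε hε M
    obtain ⟨t₀, δ, hδ, h2⟩ := hf M
    -- a bound for the norms of the functionals
    obtain ⟨C, hC0, hC⟩ : ∃ C : ℝ, 0 < C ∧ ∀ i, ‖functional (a i)‖ < C := by
      refine ⟨∑ i, ‖functional (a i)‖ + 1, by positivity, fun i => ?_⟩
      have h3 : ‖functional (a i)‖ ≤ ∑ i, ‖functional (a i)‖ :=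
        Finset.single_le_sum (f := fun i => ‖functional (a i)‖) (fun i _ => norm_nonneg _)
          (Finset.mem_univ i)
      linarith
    have hlarge : ∀ᶠ t : ℝ in atTop, ∀ i, functional (a i) D < 0 →
        t * functional (a i) D + 1 ≤ 0 := by
      rw [Filter.eventually_all]
      intro i
      by_cases hi : functional (a i) D < 0
      · have h3 : Tendsto (fun t : ℝ => t * functional (a i) D) atTop atBot :=
          tendsto_id.atTop_mul_const_of_neg hi
        filter_upwards [h3.eventually_le_atBot (-1)] with t ht _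
        linarith
      · exact Eventually.of_forall fun _ h => absurd h hi
    obtain ⟨t₁, ht₁⟩ := eventually_atTop.1 hlarge
    obtain ⟨t, htN, z, hz, hzD⟩ := exists_approx D
      (show (0 : ℝ) < min ε (min (δ / 2) (1 / C)) by positivity) ⌈max t₀ t₁⌉₊
    have htt : max t₀ t₁ ≤ (t : ℝ) := (Nat.le_ceil _).trans (by exact_mod_cast htN)
    have hz1 : ‖z - (t : ℝ) • D‖ ≤ ε := hzD.trans (min_le_left _ _)
    have hz2 : ‖z - (t : ℝ) • D‖ ≤ δ / 2 :=
      hzD.trans ((min_le_right _ _).trans (min_le_left _ _))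
    have hz3 : ‖z - (t : ℝ) • D‖ ≤ 1 / C :=
      hzD.trans ((min_le_right _ _).trans (min_le_right _ _))
    have hsplit : ∀ i, functional (a i) z =
        (t : ℝ) * functional (a i) D + functional (a i) (z - (t : ℝ) • D) := by
      intro i
      rw [map_sub, map_smul, smul_eq_mul]; ring
    have hsmall : ∀ i, |functional (a i) (z - (t : ℝ) • D)| < 1 := by
      intro i
      have h3 := (functional (a i)).le_opNorm (z - (t : ℝ) • D)
      rw [Real.norm_eq_abs] at h3
      refine h3.trans_lt ?_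
      have h4 : ‖functional (a i)‖ * ‖z - (t : ℝ) • D‖ ≤ ‖functional (a i)‖ * (1 / C) :=
        mul_le_mul_of_nonneg_left hz3 (norm_nonneg _)
      refine h4.trans_lt ?_
      rw [mul_one_div, div_lt_one hC0]
      exact hC i
    have hzero : ∀ i, functional (a i) D = 0 → functional (a i) z = 0 := by
      intro i hi
      obtain ⟨c, hc⟩ := functional_int (a i) hz
      have h3 := hsmall i
      have h4 := hsplit i
      rw [hi, mul_zero, zero_add] at h4
      rw [← h4, hc] at h3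
      rw [hc]
      have h6 : |c| < 1 := by exact_mod_cast h3
      have h7 : c = 0 := Int.abs_lt_one_iff.1 h6
      rw [h7]; simp
    have hzW : z ∈ W := (hWmem z).2 fun i hi => hzero i ((hWmem D).1 hDW i hi)
    have hzle : ∀ i, functional (a i) z ≤ 0 := by
      intro i
      rcases (hDle i).lt_or_eq with h | h
      · have h3 := ht₁ t ((le_max_right _ _).trans htt) i h
        have h4 := (le_abs_self _).trans (hsmall i).le
        rw [hsplit i]
        linarith
      · exact (hzero i h).le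
    refine ⟨y + z, ⟨⟨?_, intPoints_add hy.2 hz⟩, ?_⟩, ?_⟩
    · rw [hPmem]
      intro i
      rw [map_add]
      have h3 := (hPmem _).1 hy.1 i
      linarith [hzle i]
    · rw [Set.mem_add]
      refine ⟨y + (t : ℝ) • D, ⟨t, Nat.cast_nonneg _, rfl⟩, z - (t : ℝ) • D, ?_, ?_⟩
      · rw [mem_closedBall_zero_iff]; exact hz1
      · abel
    · have h3 : y + z = y + (z - (t : ℝ) • D) + (t : ℝ) • D := by abel
      rw [h3]
      refine h2 (t : ℝ) (z - (t : ℝ) • D) (W.sub_mem hzW (W.smul_mem _ hDW))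
        ((le_max_left _ _).trans htt) ?_
      linarith

theorem exists_thin_ray {n : ℕ} {P : Set (Space n)} (hP : IsRationalPolyhedron P)
    {f : Space n → ℝ} (hf : IsCubicFunction f) (hub : UnboundedBelow f (P ∩ intPoints n)) :
    ∃ y ∈ P ∩ intPoints n, ∃ d, IsUnboundedThinRay P f y d := by
  classical
  obtain ⟨F, hF⟩ := exists_cubic hf
  obtain ⟨m, a, b, rfl⟩ := exists_integral hP
  set ℓ : Fin m → Space n →L[ℝ] ℝ := fun i => functional (a i) with hℓ
  have hPmem : ∀ x : Space n, x ∈ {x : Space n | ∀ i, ∑ j, (a i j : ℝ) * x j ≤ b i} ↔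
      ∀ i, ℓ i x ≤ b i := by
    intro x
    show (∀ i, _ ≤ _) ↔ _
    refine forall_congr' fun i => ?_
    rw [hℓ]
    show _ ↔ functional (a i) x ≤ b i
    rw [functional_apply]
  generalize {x : Space n | ∀ i, ∑ j, (a i j : ℝ) * x j ≤ b i} = P at hP hub hPmem ⊢
  -- the sequence and the ultrafilter
  choose x hx hfx using fun k : ℕ => hub (-(k : ℝ))
  have hxP : ∀ k i, ℓ i (x k) ≤ b i := fun k => (hPmem _).1 (hx k).1
  set 𝒰 : Ultrafilter ℕ := hyperfilter ℕ with h𝒰
  have hle : (𝒰 : Filter ℕ) ≤ atTop := Nat.hyperfilter_le_atTop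
  have hlim : Tendsto (fun k => f (x k)) 𝒰 atBot := by
    have h1 : Tendsto (fun k => f (x k)) atTop atBot := by
      refine tendsto_atBot_mono (fun k => (hfx k).le) ?_
      exact tendsto_neg_atTop_atBot.comp tendsto_natCast_atTop_atTop
    exact h1.mono_left hle
  -- the constraints
  have hdich : ∀ i, (∃ c : ℝ, ∀ᶠ k in (𝒰 : Filter ℕ), ℓ i (x k) = c) ∨
      Tendsto (fun k => ℓ i (x k)) 𝒰 atBot := by
    intro i
    by_cases h : ∃ M : ℤ, ∀ᶠ k in (𝒰 : Filter ℕ), (M : ℝ) ≤ ℓ i (x k)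
    · left
      obtain ⟨M, hM⟩ := h
      have h1 : ∀ k, ∃ c : ℤ, ℓ i (x k) = c := fun k => functional_int _ (hx k).2
      choose c hc using h1
      have h2 : ∀ᶠ k in (𝒰 : Filter ℕ), c k ∈ (Finset.Icc M ⌊b i⌋ : Set ℤ) := by
        filter_upwards [hM] with k hk
        rw [hc] at hk
        have h3 := hxP k i
        rw [hc] at h3
        rw [Finset.coe_Icc, Set.mem_Icc]
        exact ⟨by exact_mod_cast hk, Int.le_floor.2 h3⟩
      have h3 : (⋃ v ∈ (Finset.Icc M ⌊b i⌋ : Set ℤ), c ⁻¹' {v}) ∈ 𝒰 := by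
        refine mem_of_superset h2 fun k hk => ?_
        exact mem_biUnion hk rfl
      obtain ⟨v, _, hv⟩ := (Ultrafilter.finite_biUnion_mem_iff
        (Finset.finite_toSet (Finset.Icc M ⌊b i⌋))).1 h3
      refine ⟨v, ?_⟩
      filter_upwards [hv] with k hk
      rw [hc]
      exact congrArg _ hk
    · right
      rw [tendsto_atBot]
      intro R
      rcases 𝒰.em (fun k => ℓ i (x k) ≤ R) with h1 | h1
      · exact h1
      · refine absurd ⟨⌊R⌋, ?_⟩ h
        filter_upwards [h1] with k hk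
        exact (Int.floor_le R).trans (not_le.1 hk).le
  -- the base point
  obtain ⟨k₀, hk₀⟩ : ∃ k₀, ∀ i, (∀ᶠ k in (𝒰 : Filter ℕ), ℓ i (x k) = ℓ i (x k₀)) ∨
      Tendsto (fun k => ℓ i (x k)) 𝒰 atBot := by
    have h1 : ∀ᶠ k₀ in (𝒰 : Filter ℕ), ∀ i, (∀ᶠ k in (𝒰 : Filter ℕ), ℓ i (x k) = ℓ i (x k₀)) ∨
        Tendsto (fun k => ℓ i (x k)) 𝒰 atBot := by
      rw [Filter.eventually_all]
      intro i
      rcases hdich i with ⟨c, hc⟩ | h
      · filter_upwards [hc] with k₀ h2
        left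
        rw [h2]
        exact hc
      · exact Eventually.of_forall fun _ => Or.inr h
    exact h1.exists
  set x₀ := x k₀ with hx₀
  -- the subspace
  set I : Set (Fin m) := {i | ∀ᶠ k in (𝒰 : Filter ℕ), ℓ i (x k) = ℓ i x₀} with hI
  set W : Submodule ℝ (Space n) := ⨅ i : I, LinearMap.ker (ℓ i : Space n →ₗ[ℝ] ℝ) with hW
  have hWmem : ∀ v : Space n, v ∈ W ↔ ∀ i ∈ I, ℓ i v = 0 := by
    intro v
    rw [hW, Submodule.mem_iInf]
    constructor
    · intro h i hi
      exact h ⟨i, hi⟩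
    · rintro h ⟨i, hi⟩
      exact h i hi
  set u : ℕ → W := fun k => if h : x k - x₀ ∈ W then ⟨x k - x₀, h⟩ else 0 with hu
  have hu1 : ∀ k, x₀ + (u k : Space n) ∈ P ∩ intPoints n := by
    intro k
    by_cases h : x k - x₀ ∈ W
    · have h1 : x₀ + (u k : Space n) = x k := by
        simp only [hu, dif_pos h]; abel
      rw [h1]; exact hx k
    · have h1 : x₀ + (u k : Space n) = x₀ := by
        simp only [hu, dif_neg h]
        simp
      rw [h1]; exact hx k₀
  have hu2 : ∀ᶠ k in (𝒰 : Filter ℕ), x₀ + (u k : Space n) = x k := by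
    have h1 : ∀ᶠ k in (𝒰 : Filter ℕ), ∀ i : I, ℓ i (x k) = ℓ i x₀ := by
      rw [Filter.eventually_all]
      exact fun i => i.2
    filter_upwards [h1] with k hk
    have h : x k - x₀ ∈ W := by
      rw [hWmem]
      intro i hi
      rw [map_sub, hk ⟨i, hi⟩, sub_self]
    simp only [hu, dif_pos h]; abel
  -- the application of the core theorem
  set G : CubicFn W := cubRestrict F x₀ W with hG
  have hGval : ∀ v : W, G.val v = f (x₀ + v) := by
    intro v; rw [hG, cubRestrict_val, hF]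
  let A : {i // i ∉ I} → W →L[ℝ] ℝ := fun i => (ℓ i).comp W.subtypeL
  have hAlim : ∀ i, Tendsto (fun k => A i (u k)) 𝒰 atBot := by
    rintro ⟨i, hi⟩
    have h1 : Tendsto (fun k => ℓ i (x k)) 𝒰 atBot := (hk₀ i).resolve_left hi
    have h2 := tendsto_atBot_add_const_right _ (-(ℓ i x₀)) h1
    refine h2.congr' ?_
    filter_upwards [hu2] with k hk
    show ℓ i (x k) + -(ℓ i x₀) = ℓ i (u k)
    rw [← hk, map_add]; ring
  have hGlim : Tendsto (fun k => G.val (u k)) 𝒰 atBot := by
    refine hlim.congr' ?_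
    filter_upwards [hu2] with k hk
    rw [hGval, hk]
  obtain ⟨D, hD, hcase⟩ := core 𝒰 A G u hAlim hGlim
  obtain ⟨k₁, hk₁⟩ : ∃ k₁, G.T D D D < 0 ∨ ((∀ v, G.T D D v = 0) ∧ G.B D D < 0) ∨
      ((∀ v, G.T D D v = 0) ∧ G.B D D = 0 ∧ G.slope D (u k₁) < 0) := by
    rcases hcase with h | h | ⟨h1, h2, k, h3⟩
    · exact ⟨0, Or.inl h⟩
    · exact ⟨0, Or.inr (Or.inl h)⟩
    · exact ⟨k, Or.inr (Or.inr ⟨h1, h2, h3⟩)⟩
  have hDI : ∀ i ∈ I, ℓ i (D : Space n) = 0 := (hWmem _).1 D.2
  have hDle : ∀ i, ℓ i (D : Space n) ≤ 0 := by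
    intro i
    by_cases hi : i ∈ I
    · exact (hDI i hi).le
    · exact hD ⟨i, hi⟩
  have hDne : D ≠ 0 := by
    rintro rfl
    have h0 : (0 : W) = (0 : ℝ) • (0 : W) := by simp
    have e1 : ∀ v w, G.T 0 v w = 0 := by
      intro v w; rw [h0, G.Tsmul, zero_mul]
    have e2 : ∀ v, G.B 0 v = 0 := by
      intro v; rw [h0, G.Bsmul, zero_mul]
    have e3 : G.L 0 = 0 := by
      rw [h0, G.Lsmul, zero_mul]
    rcases hk₁ with h | ⟨_, h⟩ | ⟨_, _, h⟩
    · rw [e1] at h; exact lt_irrefl _ h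
    · rw [e2] at h; exact lt_irrefl _ h
    · rw [CubicFn.slope, e1, e2, e3] at h
      norm_num at h
  refine ⟨x₀ + (u k₁ : Space n), hu1 k₁, (D : Space n), ?_⟩
  refine isThin a b hPmem I W hWmem (hu1 k₁) D.2 (fun h => hDne (Subtype.ext h)) hDle ?_
  intro M
  have hT := tendsto_along G (u k₁) D hk₁
  have h1 := hT.eventually_lt_atBot M
  rw [(atTop_basis.prod Metric.nhds_basis_ball).eventually_iff] at h1
  obtain ⟨⟨t₀, δ⟩, ⟨_, hδ⟩, h2⟩ := h1
  refine ⟨t₀, δ, hδ, fun s v hv hs hvδ => ?_⟩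
  have h3 := @h2 (s, ⟨v, hv⟩) ⟨hs, by rw [mem_ball_zero_iff]; exact hvδ⟩
  rw [hGval] at h3
  have h4 : x₀ + (u k₁ : Space n) + v + s • (D : Space n)
      = x₀ + ((u k₁ + (⟨v, hv⟩ : W) + s • D : W) : Space n) := by
    rw [Submodule.coe_add, Submodule.coe_add, Submodule.coe_smul]
    abel
  rw [h4]
  exact h3

/-- **Thin rays.**  For every `n`, every rational polyhedron `P` in `ℝ^n` and every cubic function
`f`, the infimum of `f` over the integer points of `P` is `-∞` if and only if `P` has an unbounded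
thin ray for `f`.  In this case there is such a ray whose starting point is an integer point of
`P`. -/
theorem result : ∀ (n : ℕ) (P : Set (Space n)), IsRationalPolyhedron P →
    ∀ f : Space n → ℝ, IsCubicFunction f →
      (UnboundedBelow f (P ∩ intPoints n) ↔ ∃ y d, IsUnboundedThinRay P f y d) ∧
      (UnboundedBelow f (P ∩ intPoints n) →
        ∃ y ∈ P ∩ intPoints n, ∃ d, IsUnboundedThinRay P f y d) := by
  intro n P hP f hf
  refine ⟨⟨fun h => ?_, ?_⟩, exists_thin_ray hP hf⟩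
  · obtain ⟨y, _, d, hd⟩ := exists_thin_ray hP hf h
    exact ⟨y, d, hd⟩
  · rintro ⟨y, d, hd⟩ M
    obtain ⟨x, hx, hfx⟩ := hd.unbounded 1 one_pos M
    exact ⟨x, hx.1, hfx⟩

end Pool.Agent.Results.MP_0e8110_lc.ThinRays
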